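import Pool.Agent.H41.LI.Num

set_option autoImplicit false

open MeasureTheory Filter Topology Set Pool.Agent.H41.LI

namespace Pool.Agent.Results.MP_9bfe5b_nt.FirstCrossing

/-- The number of primes `p ≤ x`. -/
noncomputable def primePi (x : ℝ) : ℕ := Nat.primeCounting ⌊x⌋₊

/-- The set of all `x ≥ 2` with `π(x) > li(x)`. -/
def Excess : Set ℝ := {x : ℝ | 2 ≤ x ∧ li x < primePi x}

/-- The primes `p ≤ x`. -/
noncomputable def primesUpTo (x : ℝ) : Finset ℕ := (Finset.range (⌊x⌋₊ + 1)).filter Nat.Prime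

theorem primePi_nat (n : ℕ) : primePi (n : ℝ) = Nat.primeCounting n := by
  unfold primePi
  rw [Nat.floor_natCast]

theorem pc_succ (m : ℕ) :
    Nat.primeCounting (m + 1) = Nat.primeCounting m + if (m + 1).Prime then 1 else 0 := by
  unfold Nat.primeCounting Nat.primeCounting'
  rw [Nat.count_succ]

theorem exists_nat (h : Excess.Nonempty) : ∃ n : ℕ, 2 ≤ n ∧ IsLeast Excess (n : ℝ) ∧
    ∀ m : ℕ, 2 ≤ m → m < n → (Nat.primeCounting m : ℝ) ≤ li m := by
  classical
  have fl : ∀ x : ℝ, x ∈ Excess → 2 ≤ ⌊x⌋₊ ∧ li (⌊x⌋₊ : ℝ) < Nat.primeCounting ⌊x⌋₊ := by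
    intro x hx
    have h2 : 2 ≤ ⌊x⌋₊ := Nat.le_floor (by exact_mod_cast hx.1)
    refine ⟨h2, lt_of_le_of_lt (li_mono ?_ (Nat.floor_le (by linarith [hx.1]))) hx.2⟩
    have : (2:ℝ) ≤ (⌊x⌋₊ : ℝ) := by exact_mod_cast h2
    linarith
  have ex : ∃ n : ℕ, 2 ≤ n ∧ li (n : ℝ) < Nat.primeCounting n := by
    obtain ⟨x, hx⟩ := h
    exact ⟨⌊x⌋₊, fl x hx⟩
  refine ⟨Nat.find ex, (Nat.find_spec ex).1, ⟨?_, ?_⟩, ?_⟩
  · refine ⟨by exact_mod_cast (Nat.find_spec ex).1, ?_⟩
    rw [primePi_nat]
    exact (Nat.find_spec ex).2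
  · intro x hx
    have h1 : Nat.find ex ≤ ⌊x⌋₊ := Nat.find_min' ex (fl x hx)
    have h2 : (Nat.find ex : ℝ) ≤ (⌊x⌋₊ : ℝ) := by exact_mod_cast h1
    exact h2.trans (Nat.floor_le (by linarith [hx.1]))
  · intro m hm hlt
    by_contra hc
    exact Nat.find_min ex hlt ⟨hm, not_le.1 hc⟩

theorem le_li {n : ℕ} (hL : IsLeast Excess (n : ℝ)) {y : ℝ} (h2 : 2 ≤ y) (hy : y < n) :
    (primePi y : ℝ) ≤ li y := by
  by_contra hc
  have := hL.2 (show y ∈ Excess from ⟨h2, not_le.1 hc⟩)
  linarith

theorem prime_of {n : ℕ} (h2 : 2 ≤ n) (hL : IsLeast Excess (n : ℝ)) : n.Prime := by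
  by_contra hp
  obtain ⟨m, rfl⟩ : ∃ m, n = m + 1 := ⟨n - 1, by omega⟩
  have hm : 2 ≤ m := by
    rcases Nat.lt_or_ge m 2 with h | h
    · have : m = 1 := by omega
      subst this
      exact absurd Nat.prime_two hp
    · exact h
  have e : Nat.primeCounting (m + 1) = Nat.primeCounting m := by
    rw [pc_succ, if_neg hp, add_zero]
  have a1 : (primePi (m : ℝ) : ℝ) ≤ li m :=
    le_li hL (by exact_mod_cast hm) (by push_cast; linarith)
  have a2 := hL.1.2
  rw [primePi_nat] at a1 a2
  rw [e] at a2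
  have a3 : li (m : ℝ) ≤ li ((m + 1 : ℕ) : ℝ) := by
    apply li_mono
    · have : (2:ℝ) ≤ m := by exact_mod_cast hm
      linarith
    · push_cast
      linarith
  linarith

theorem pi_le {n : ℕ} (h2 : 2 ≤ n) (hL : IsLeast Excess (n : ℝ)) :
    (Nat.primeCounting n : ℝ) ≤ li n + 1 := by
  obtain ⟨m, rfl⟩ : ∃ m, n = m + 1 := ⟨n - 1, by omega⟩
  have e := pc_succ m
  rw [if_pos (prime_of h2 hL)] at e
  rcases Nat.lt_or_ge m 2 with h | h
  · have : m = 1 := by omega
    subst this
    have z : Nat.primeCounting 1 = 0 := by decide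
    rw [z] at e
    rw [e]
    have := li_two_nonneg
    push_cast
    norm_num
    exact this
  · have a1 : (primePi (m : ℝ) : ℝ) ≤ li m :=
      le_li hL (by exact_mod_cast h) (by push_cast; linarith)
    rw [primePi_nat] at a1
    have a3 : li (m : ℝ) ≤ li ((m + 1 : ℕ) : ℝ) := by
      apply li_mono
      · have : (2:ℝ) ≤ m := by exact_mod_cast h
        linarith
      · push_cast
        linarith
    rw [e]
    push_cast at a3 ⊢
    linarith

theorem f_int {N : ℝ} {f : ℝ → ℝ} (hf : MonotoneOn f (Icc 2 N)) {a b : ℝ} (ha : 2 ≤ a)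
    (hab : a ≤ b) (hb : b ≤ N) :
    IntervalIntegrable (fun t => f t / Real.log t) volume a b := by
  have h1 : IntervalIntegrable f volume a b := by
    apply MonotoneOn.intervalIntegrable
    rw [uIcc_of_le hab]
    exact hf.mono (Icc_subset_Icc ha hb)
  simp only [div_eq_mul_inv]
  apply h1.mul_continuousOn
  rw [uIcc_of_le hab]
  have hpos : ∀ u ∈ Icc a b, 1 < u := fun u hu => by linarith [hu.1]
  apply ContinuousOn.inv₀
  · exact Real.continuousOn_log.mono (fun u hu => by
      have := hpos u hu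
      simp only [mem_compl_iff, mem_singleton_iff]
      linarith)
  · intro u hu
    exact (Real.log_pos (hpos u hu)).ne'

/-- The left side minus the right side of the main inequality. -/
noncomputable def surplus (f : ℝ → ℝ) (m : ℕ) : ℝ :=
  (∑ p ∈ (Finset.range (m + 1)).filter Nat.Prime, f p)
    - (∫ t in (2:ℝ)..(m : ℝ), f t / Real.log t) - f m * (Nat.primeCounting m - li m)

theorem surplus_two (f : ℝ → ℝ) : surplus f 2 = li 2 * f 2 := by
  have e : (Finset.range (2 + 1)).filter Nat.Prime = {2} := by decide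
  have z : Nat.primeCounting 2 = 1 := by decide
  unfold surplus
  rw [e, z, Finset.sum_singleton]
  norm_num
  ring

theorem surplus_step {n : ℕ} (hL : IsLeast Excess (n : ℝ)) {f : ℝ → ℝ}
    (hf : MonotoneOn f (Icc 2 (n : ℝ))) (m : ℕ) (hm : 2 ≤ m) (hmn : m + 1 ≤ n) :
    surplus f m ≤ surplus f (m + 1) := by
  have hmR : (2:ℝ) ≤ m := by exact_mod_cast hm
  have hm1R : (m : ℝ) + 1 ≤ n := by exact_mod_cast hmn
  have hs : ∑ p ∈ (Finset.range (m + 1 + 1)).filter Nat.Prime, f p
      = (∑ p ∈ (Finset.range (m + 1)).filter Nat.Prime, f p)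
        + f ((m : ℝ) + 1) * ((Nat.primeCounting (m + 1) : ℝ) - Nat.primeCounting m) := by
    rw [pc_succ, Finset.range_add_one, Finset.filter_insert]
    split_ifs with hp
    · rw [Finset.sum_insert (by simp)]
      push_cast
      ring
    · push_cast
      ring
  have hi : (∫ t in (2:ℝ)..((m : ℝ) + 1), f t / Real.log t)
      = (∫ t in (2:ℝ)..(m : ℝ), f t / Real.log t)
        + ∫ t in (m : ℝ)..((m : ℝ) + 1), f t / Real.log t :=
    (intervalIntegral.integral_add_adjacent_intervals (f_int hf le_rfl hmR (by linarith))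
      (f_int hf hmR (by linarith) hm1R)).symm
  have hb : (∫ t in (m : ℝ)..((m : ℝ) + 1), f t / Real.log t)
      ≤ f ((m : ℝ) + 1) * (li ((m : ℝ) + 1) - li m) := by
    rw [li_sub (by linarith) (by linarith), ← intervalIntegral.integral_const_mul]
    apply intervalIntegral.integral_mono_on (by linarith) (f_int hf hmR (by linarith) hm1R)
      ((log_int (by linarith) (by linarith)).const_mul _)
    intro t ht
    rw [div_eq_mul_inv]
    apply mul_le_mul_of_nonneg_right
    · exact hf ⟨by linarith [ht.1], by linarith [ht.2]⟩ ⟨by linarith, hm1R⟩ ht.2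
    · exact inv_nonneg.2 (Real.log_nonneg (by linarith [ht.1]))
  have hle : (Nat.primeCounting m : ℝ) ≤ li m := by
    have := le_li hL hmR (by linarith)
    rwa [primePi_nat] at this
  have hfm : f m ≤ f ((m : ℝ) + 1) :=
    hf ⟨hmR, by linarith⟩ ⟨by linarith, hm1R⟩ (by linarith)
  have hprod : 0 ≤ (f ((m : ℝ) + 1) - f m) * (li m - Nat.primeCounting m) :=
    mul_nonneg (by linarith) (by linarith)
  unfold surplus
  rw [hs]
  push_cast
  rw [hi]
  nlinarith [hprod, hb]

theorem surplus_mono {n : ℕ} (hL : IsLeast Excess (n : ℝ)) {f : ℝ → ℝ}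
    (hf : MonotoneOn f (Icc 2 (n : ℝ))) (m : ℕ) (hm : 2 ≤ m) (k : ℕ) (hk : m ≤ k) :
    k ≤ n → surplus f m ≤ surplus f k := by
  induction k, hk using Nat.le_induction with
  | base => intro _; exact le_rfl
  | succ k hk ih =>
    intro hkn
    exact (ih (by omega)).trans (surplus_step hL hf k (by omega) hkn)

theorem main_ineq {n : ℕ} (h2 : 2 ≤ n) (hL : IsLeast Excess (n : ℝ)) {f : ℝ → ℝ}
    (hf : MonotoneOn f (Icc 2 (n : ℝ))) :
    (∫ t in (2:ℝ)..(n : ℝ), f t / Real.log t) + li 2 * f 2
      + f n * (Nat.primeCounting n - li n)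
      ≤ ∑ p ∈ (Finset.range (n + 1)).filter Nat.Prime, f p := by
  have := surplus_mono hL hf 2 le_rfl n h2 le_rfl
  rw [surplus_two] at this
  unfold surplus at this
  linarith

theorem small_le (n : ℕ) (h2 : 2 ≤ n) (h10 : n ≤ 10) : (Nat.primeCounting n : ℝ) ≤ li n := by
  have c2 : Nat.primeCounting 2 = 1 := by decide
  have c3 : Nat.primeCounting 3 = 2 := by decide
  have c4 : Nat.primeCounting 4 = 2 := by decide
  have c5 : Nat.primeCounting 5 = 3 := by decide
  have c6 : Nat.primeCounting 6 = 3 := by decide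
  have c7 : Nat.primeCounting 7 = 4 := by decide
  have c8 : Nat.primeCounting 8 = 4 := by decide
  have c9 : Nat.primeCounting 9 = 4 := by decide
  have c10 : Nat.primeCounting 10 = 4 := by decide
  have l2 := li_two
  have l3 := li_three
  have l5 := li_five
  have l7 := li_seven
  have m4 := li_mono (y := 3) (x := 4) (by norm_num) (by norm_num)
  have m6 := li_mono (y := 5) (x := 6) (by norm_num) (by norm_num)
  have m8 := li_mono (y := 7) (x := 8) (by norm_num) (by norm_num)
  have m9 := li_mono (y := 7) (x := 9) (by norm_num) (by norm_num)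
  have m10 := li_mono (y := 7) (x := 10) (by norm_num) (by norm_num)
  interval_cases n
  · rw [c2]; push_cast; norm_num at l2 ⊢; linarith
  · rw [c3]; push_cast; norm_num at l3 ⊢; linarith
  · rw [c4]; push_cast; norm_num at l3 ⊢; linarith
  · rw [c5]; push_cast; norm_num at l5 ⊢; linarith
  · rw [c6]; push_cast; norm_num at l5 ⊢; linarith
  · rw [c7]; push_cast; norm_num at l7 ⊢; linarith
  · rw [c8]; push_cast; norm_num at l7 ⊢; linarith
  · rw [c9]; push_cast; norm_num at l7 ⊢; linarith
  · rw [c10]; push_cast; norm_num at l7 ⊢; linarith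

theorem eleven_le {n : ℕ} (h2 : 2 ≤ n) (hL : IsLeast Excess (n : ℝ)) : 11 ≤ n := by
  by_contra hc
  have a := small_le n h2 (by omega)
  have b := hL.1.2
  rw [primePi_nat] at b
  linarith

theorem surplus_log_ten : 2 ≤ surplus Real.log 10 := by
  have e : (Finset.range (10 + 1)).filter Nat.Prime = {2, 3, 5, 7} := by decide
  have c10 : Nat.primeCounting 10 = 4 := by decide
  have ei : ∫ t in (2:ℝ)..(10 : ℝ), Real.log t / Real.log t = 8 := by
    have : ∫ t in (2:ℝ)..(10 : ℝ), Real.log t / Real.log t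
        = ∫ t in (2:ℝ)..(10 : ℝ), (1:ℝ) := by
      apply intervalIntegral.integral_congr
      intro t ht
      rw [uIcc_of_le (by norm_num)] at ht
      exact div_self (Real.log_pos (by linarith [ht.1])).ne'
    rw [this, intervalIntegral.integral_const]
    norm_num
  have t := ten_ineq
  unfold surplus
  rw [e, c10]
  have es : ∑ p ∈ ({2, 3, 5, 7} : Finset ℕ), Real.log (p : ℝ)
      = Real.log 2 + Real.log 3 + Real.log 5 + Real.log 7 := by
    rw [Finset.sum_insert (by decide), Finset.sum_insert (by decide),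
      Finset.sum_insert (by decide), Finset.sum_singleton]
    push_cast
    ring
  rw [es]
  push_cast
  rw [ei]
  linarith

theorem theta_gt {n : ℕ} (h2 : 2 ≤ n) (hL : IsLeast Excess (n : ℝ)) :
    (n : ℝ) + Real.log n * (Nat.primeCounting n - li n)
      ≤ ∑ p ∈ (Finset.range (n + 1)).filter Nat.Prime, Real.log p := by
  have h11 := eleven_le h2 hL
  have hnR : (11:ℝ) ≤ n := by exact_mod_cast h11
  have hmono : MonotoneOn Real.log (Icc 2 (n : ℝ)) := by
    intro a ha b hb hab
    exact Real.log_le_log (by linarith [ha.1]) hab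
  have h := surplus_mono hL hmono 10 (by norm_num) n (by omega) le_rfl
  have t := surplus_log_ten
  have e : ∫ t in (2:ℝ)..(n : ℝ), Real.log t / Real.log t = n - 2 := by
    have : ∫ t in (2:ℝ)..(n : ℝ), Real.log t / Real.log t
        = ∫ t in (2:ℝ)..(n : ℝ), (1:ℝ) := by
      apply intervalIntegral.integral_congr
      intro t ht
      rw [uIcc_of_le (by linarith)] at ht
      exact div_self (Real.log_pos (by linarith [ht.1])).ne'
    rw [this, intervalIntegral.integral_const]
    simp
  unfold surplus at h t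
  rw [e] at h
  linarith

theorem interval_count {n : ℕ} (hL : IsLeast Excess (n : ℝ)) {y : ℝ} (h2 : 2 ≤ y)
    (hy : y < n) :
    ∫ u in y..(n : ℝ), 1 / Real.log u < (primePi (n : ℝ) : ℝ) - primePi y := by
  have h1 := le_li hL h2 hy
  have h3 := hL.1.2
  have h4 := li_sub (y := y) (x := n) (by linarith) (by linarith)
  simp only [one_div]
  linarith

theorem gap {n : ℕ} (h2n : 2 ≤ n) (hL : IsLeast Excess (n : ℝ)) (k : ℕ) (hk : 1 ≤ k)
    (hkn : (2:ℝ) ≤ n - k * Real.log n) :
    primePi ((n : ℝ) - k * Real.log n) + (k + 1) ≤ primePi (n : ℝ) := by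
  have hn1 : (1:ℝ) < n := by
    have : (2:ℝ) ≤ n := by exact_mod_cast h2n
    linarith
  have hlog : 0 < Real.log n := Real.log_pos hn1
  have hk0 : (0:ℝ) < k := by exact_mod_cast hk
  have hy : (n : ℝ) - k * Real.log n < n := by
    have := mul_pos hk0 hlog
    linarith
  have h1 := interval_count hL hkn hy
  have h3 : (k : ℝ) ≤ ∫ u in ((n : ℝ) - k * Real.log n)..(n : ℝ), 1 / Real.log u := by
    have e : (k : ℝ) = ∫ u in ((n : ℝ) - k * Real.log n)..(n : ℝ), (Real.log n)⁻¹ := by
      rw [intervalIntegral.integral_const, smul_eq_mul]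
      have : ((n : ℝ) - (n - k * Real.log n)) = k * Real.log n := by ring
      rw [this]
      field_simp
    calc (k : ℝ) = _ := e
      _ ≤ _ := by
        apply intervalIntegral.integral_mono_on hy.le (by simp)
        · simp only [one_div]
          exact log_int (by linarith) hn1
        · intro u hu
          rw [one_div]
          have hu1 : 1 < u := by linarith [hu.1]
          exact (inv_le_inv₀ hlog (Real.log_pos hu1)).2
            (Real.log_le_log (by linarith) hu.2)
  have h4 : (k : ℝ) < (primePi (n : ℝ) : ℝ) - primePi ((n : ℝ) - k * Real.log n) :=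
    lt_of_le_of_lt h3 h1
  have h5 : ((primePi ((n : ℝ) - k * Real.log n) + k : ℕ) : ℝ) < (primePi (n : ℝ) : ℝ) := by
    push_cast
    linarith
  have h6 : primePi ((n : ℝ) - k * Real.log n) + k < primePi (n : ℝ) := by exact_mod_cast h5
  omega

/-- Let `li x` be the principal value of `∫_0^x du/log u` (limit of the truncated integrals
`trunc x ε`; the limit exists for all `x > 1`), `primePi x` the number of primes `p ≤ x`, and
`Excess` the set of all `x ≥ 2` with `π(x) > li(x)`. Let the real number `N` be the infimum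
(greatest lower bound) of `Excess`, the first sign change. Then:
(1) `N` lies in `Excess`, it is a prime number, and `0 < π(N) - li(N) ≤ 1`;
(2) at `N` itself also `θ(N) = ∑_{p ≤ N} log p ≥ N + log N (π(N) - li(N)) > N`;
(3) for every function `f` that is nondecreasing on `[2, N]` (of any sign),
`∑_{p ≤ N} f(p) ≥ ∫_2^N f(t)/log t dt + li(2) f(2) + f(N) (π(N) - li(N))`, where `li(2) > 1`;
(4) for `2 ≤ y < N` the interval `(y, N]` contains more than `∫_y^N du/log u` primes;
(5) for `k ≥ 1` with `k log N ≤ N - 2` the interval `(N - k log N, N]` contains at least `k + 1`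
primes. -/
theorem result :
    (∀ x : ℝ, 1 < x → Tendsto (trunc x) (𝓝[>] (0:ℝ)) (𝓝 (li x))) ∧
    (∀ N : ℝ, IsGLB Excess N →
      (N ∈ Excess ∧ (∃ p : ℕ, p.Prime ∧ N = p) ∧ (primePi N : ℝ) ≤ li N + 1) ∧
      (N < N + Real.log N * (primePi N - li N) ∧
        N + Real.log N * (primePi N - li N) ≤ ∑ p ∈ primesUpTo N, Real.log p) ∧
      (1 < li 2 ∧ ∀ f : ℝ → ℝ, MonotoneOn f (Icc 2 N) →
        (∫ t in (2:ℝ)..N, f t / Real.log t) + li 2 * f 2 + f N * (primePi N - li N)
          ≤ ∑ p ∈ primesUpTo N, f p) ∧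
      (∀ y : ℝ, 2 ≤ y → y < N → ∫ u in y..N, 1 / Real.log u < (primePi N : ℝ) - primePi y) ∧
      (∀ k : ℕ, 1 ≤ k → 2 ≤ N - k * Real.log N →
        primePi (N - k * Real.log N) + (k + 1) ≤ primePi N)) := by
  refine ⟨fun x hx => li_tendsto hx, ?_⟩
  intro N hN
  have hne : Excess.Nonempty := by
    by_contra hc
    rw [Set.not_nonempty_iff_eq_empty] at hc
    have hb : N + 1 ∈ lowerBounds Excess := by
      intro x hx
      rw [hc] at hx
      exact hx.elim
    have := hN.2 hb
    linarith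
  obtain ⟨n, h2, hL, _⟩ := exists_nat hne
  have hNn : N = n := hN.unique hL.isGLB
  subst hNn
  have hpi : (primePi (n : ℝ) : ℝ) = Nat.primeCounting n := by rw [primePi_nat]
  have hset : primesUpTo (n : ℝ) = (Finset.range (n + 1)).filter Nat.Prime := by
    unfold primesUpTo
    rw [Nat.floor_natCast]
  refine ⟨⟨hL.1, ⟨n, prime_of h2 hL, rfl⟩, ?_⟩, ⟨?_, ?_⟩, ⟨?_, ?_⟩, ?_, ?_⟩
  · rw [hpi]
    exact pi_le h2 hL
  · have hex := hL.1.2
    have hn1 : (1:ℝ) < n := by
      have : (2:ℝ) ≤ n := by exact_mod_cast h2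
      linarith
    have := mul_pos (Real.log_pos hn1) (sub_pos.2 hex)
    linarith
  · rw [hpi, hset]
    exact theta_gt h2 hL
  · have := li_two
    norm_num at this
    linarith
  · intro f hf
    rw [hpi, hset]
    exact main_ineq h2 hL hf
  · intro y h2y hy
    exact interval_count hL h2y hy
  · intro k hk hkn
    exact gap h2 hL k hk hkn

end Pool.Agent.Results.MP_9bfe5b_nt.FirstCrossing
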